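import Mathlib

/-!
# One-delay equation with sign-changing coefficient: no constant `M` works

For every `t₀` and every `M > 0` there are a continuous bounded coefficient `a` and a
continuous argument `h` with bounded delay such that
`0 < liminf ∫_{h t}^t a ≤ limsup ∫_{h t}^t a < M`
and yet the equation `x'(t) + a(t) x(h(t)) = 0` is not asymptotically stable.

Example: `x(t) = exp (- sin t)` is a positive `2π`-periodic solution of the equation with
`a(t) = cos t * exp (sin (t + η) - sin t)` and `h(t) = t - (2π - η)`, for small `η > 0`.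
-/

namespace Pool.Agent.Results.MP_5ce401_an.NoConstant

open Filter Topology Set Real

/-- The standing assumptions on the pair `(a, h)`: continuity on `[t₀, ∞)`, `h t ≤ t`,
`h t → ∞`, boundedness of the coefficient and of the delay. -/
structure Admissible (t₀ : ℝ) (a h : ℝ → ℝ) : Prop where
  cont_a : ContinuousOn a (Ici t₀)
  cont_h : ContinuousOn h (Ici t₀)
  h_le : ∀ t, t₀ ≤ t → h t ≤ t
  h_tendsto : Tendsto h atTop atTop
  bdd_a : ∃ A : ℝ, ∀ t, t₀ ≤ t → |a t| ≤ A
  bdd_delay : ∃ τ : ℝ, ∀ t, t₀ ≤ t → t - h t ≤ τ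

/-- `ψ` is an admissible initial function: continuous and bounded on `(-∞, t₀]`. -/
structure IsInitial (t₀ : ℝ) (ψ : ℝ → ℝ) : Prop where
  cont : ContinuousOn ψ (Iic t₀)
  bdd : ∃ C : ℝ, ∀ t, t ≤ t₀ → |ψ t| ≤ C

/-- `x` is a solution on `[t₀, ∞)` of `x'(t) + a(t) x(h(t)) = 0` with initial function `ψ`
(the derivative at `t₀` is the right derivative). -/
structure IsSolution (t₀ : ℝ) (a h ψ x : ℝ → ℝ) : Prop where
  init : ∀ t, t ≤ t₀ → x t = ψ t
  cont : Continuous x
  deriv : ∀ t, t₀ ≤ t → HasDerivWithinAt x (-(a t * x (h t))) (Ici t₀) t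

/-- Asymptotic stability: (i) stability, (ii) every solution tends to `0`. -/
def AsymptoticallyStable (t₀ : ℝ) (a h : ℝ → ℝ) : Prop :=
  (∀ ε : ℝ, 0 < ε → ∃ δ : ℝ, 0 < δ ∧ ∀ ψ x : ℝ → ℝ, IsInitial t₀ ψ →
      (∀ t, t ≤ t₀ → |ψ t| ≤ δ) → IsSolution t₀ a h ψ x → ∀ t, t₀ ≤ t → |x t| < ε) ∧
  (∀ ψ x : ℝ → ℝ, IsInitial t₀ ψ → IsSolution t₀ a h ψ x → Tendsto x atTop (𝓝 0))

/-- the coefficient of the counterexample -/
noncomputable def coef (η : ℝ) (t : ℝ) : ℝ := cos t * exp (sin (t + η) - sin t)

lemma coef_cont (η : ℝ) : Continuous (coef η) := by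
  unfold coef; fun_prop

lemma coef_periodic (η : ℝ) : Function.Periodic (coef η) (2 * π) := by
  intro t
  unfold coef
  have : t + 2 * π + η = (t + η) + 2 * π := by ring
  rw [this, cos_add_two_pi, sin_add_two_pi, sin_add_two_pi]

lemma abs_coef_le {η : ℝ} (hη : 0 < η) (t : ℝ) : |coef η t| ≤ exp η := by
  unfold coef
  rw [abs_mul, abs_of_pos (exp_pos _)]
  have h1 : |cos t| ≤ 1 := abs_cos_le_one t
  have h2 : sin (t + η) - sin t ≤ η := by
    have := Real.abs_sin_sub_sin_le (t + η) t
    have h3 : |t + η - t| = η := by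
      rw [show t + η - t = η by ring, abs_of_pos hη]
    rw [h3] at this
    exact le_trans (le_abs_self _) this
  calc |cos t| * exp (sin (t + η) - sin t) ≤ 1 * exp η := by
        apply mul_le_mul h1 (exp_le_exp.mpr h2) (exp_pos _).le zero_le_one
    _ = exp η := one_mul _

/-- first order expansion of the coefficient -/
lemma coef_approx {η : ℝ} (hη : 0 < η) (hη1 : η ≤ 1) (t : ℝ) :
    |coef η t - cos t * (1 + (sin (t + η) - sin t))| ≤ η ^ 2 := by
  unfold coef
  set u : ℝ := sin (t + η) - sin t with hu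
  have hu1 : |u| ≤ η := by
    have := Real.abs_sin_sub_sin_le (t + η) t
    rwa [show t + η - t = η by ring, abs_of_pos hη] at this
  have h2 : |exp u - 1 - u| ≤ u ^ 2 := Real.abs_exp_sub_one_sub_id_le (hu1.trans hη1)
  have h3 : u ^ 2 ≤ η ^ 2 := by
    rw [← sq_abs u]
    exact pow_le_pow_left₀ (abs_nonneg _) hu1 2
  have h4 : cos t * exp u - cos t * (1 + u) = cos t * (exp u - 1 - u) := by ring
  rw [h4, abs_mul]
  calc |cos t| * |exp u - 1 - u| ≤ 1 * η ^ 2 :=
        mul_le_mul (abs_cos_le_one t) (h2.trans h3) (abs_nonneg _) zero_le_one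
    _ = η ^ 2 := one_mul _

lemma integral_main (η : ℝ) :
    ∫ t in (0 : ℝ)..(2 * π), cos t * (1 + (sin (t + η) - sin t)) = π * sin η := by
  have hderiv : ∀ t ∈ Set.uIcc (0 : ℝ) (2 * π),
      HasDerivAt (fun t : ℝ => sin t - cos (2 * t + η) / 4 + t * sin η / 2 - sin t ^ 2 / 2)
        (cos t * (1 + (sin (t + η) - sin t))) t := by
    intro t _
    have h1 : HasDerivAt (fun t : ℝ => sin t) (cos t) t := hasDerivAt_sin t
    have h2 : HasDerivAt (fun t : ℝ => cos (2 * t + η) / 4) (-sin (2 * t + η) * 2 / 4) t := by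
      have h : HasDerivAt (fun t : ℝ => 2 * t + η) 2 t := by
        simpa using ((hasDerivAt_id t).const_mul 2).add_const η
      exact (h.cos).div_const 4
    have h3 : HasDerivAt (fun t : ℝ => t * sin η / 2) (sin η / 2) t := by
      simpa using ((hasDerivAt_id t).mul_const (sin η)).div_const 2
    have h4 : HasDerivAt (fun t : ℝ => sin t ^ 2 / 2) (cos t * sin t) t := by
      refine ((h1.pow 2).div_const 2).congr_deriv ?_
      norm_num
      ring
    have h5 := ((h1.sub h2).add h3).sub h4
    refine h5.congr_deriv ?_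
    have e1 : sin (2 * t + η) = sin t * cos (t + η) + cos t * sin (t + η) := by
      rw [show 2 * t + η = t + (t + η) by ring, sin_add]
    have e2 : sin η = sin (t + η) * cos t - cos (t + η) * sin t := by
      rw [← sin_sub]; congr 1; ring
    rw [e1]
    linear_combination (1 / 2) * e2
  rw [intervalIntegral.integral_eq_sub_of_hasDerivAt hderiv]
  · have e1 : cos (2 * (2 * π) + η) = cos η := by
      rw [show 2 * (2 * π) + η = η + 2 * π + 2 * π by ring, cos_add_two_pi, cos_add_two_pi]
    simp only [sin_two_pi, sin_zero, e1, mul_zero, zero_add, zero_mul]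
    ring
  · apply Continuous.intervalIntegrable
    fun_prop

lemma integral_period {η : ℝ} (hη : 0 < η) (hη1 : η ≤ 1) :
    |(∫ t in (0 : ℝ)..(2 * π), coef η t) - π * sin η| ≤ 2 * π * η ^ 2 := by
  rw [← integral_main η, ← intervalIntegral.integral_sub
    ((coef_cont η).intervalIntegrable _ _)
    ((by fun_prop : Continuous fun t : ℝ =>
      cos t * (1 + (sin (t + η) - sin t))).intervalIntegrable _ _)]
  have := intervalIntegral.norm_integral_le_of_norm_le_const (a := (0 : ℝ)) (b := 2 * π)
    (C := η ^ 2) (f := fun t => coef η t - cos t * (1 + (sin (t + η) - sin t)))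
    (fun t _ => by simpa using coef_approx hη hη1 t)
  rw [Real.norm_eq_abs] at this
  rw [sub_zero, abs_of_pos (by positivity : (0 : ℝ) < 2 * π)] at this
  linarith

lemma integral_window {η : ℝ} (hη : 0 < η) (t : ℝ) :
    |∫ s in t..(t + η), coef η s| ≤ exp η * η := by
  have := intervalIntegral.norm_integral_le_of_norm_le_const (a := t) (b := t + η)
    (C := exp η) (f := coef η) (fun s _ => by simpa using abs_coef_le hη s)
  rw [Real.norm_eq_abs] at this
  rwa [show t + η - t = η by ring, abs_of_pos hη] at this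

lemma integral_delay (η t : ℝ) :
    ∫ s in (t - (2 * π - η))..t, coef η s =
      (∫ s in (0 : ℝ)..(2 * π), coef η s) - ∫ s in t..(t + η), coef η s := by
  have hint : ∀ a b : ℝ, IntervalIntegrable (coef η) MeasureTheory.volume a b :=
    fun a b => (coef_cont η).intervalIntegrable a b
  have h1 : (∫ s in (t - (2 * π - η))..t, coef η s) + (∫ s in t..(t + η), coef η s) =
      ∫ s in (t - (2 * π - η))..(t + η), coef η s :=
    intervalIntegral.integral_add_adjacent_intervals (hint _ _) (hint _ _)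
  have h2 : ∫ s in (t - (2 * π - η))..(t - (2 * π - η)) + 2 * π, coef η s =
      ∫ s in (0 : ℝ)..(0 + 2 * π), coef η s :=
    (coef_periodic η).intervalIntegral_add_eq _ _
  rw [show t - (2 * π - η) + 2 * π = t + η by ring, zero_add] at h2
  linarith

lemma bounds {η : ℝ} (hη : 0 < η) (hη1 : η ≤ 1 / 10) (t : ℝ) :
    η ≤ ∫ s in (t - (2 * π - η))..t, coef η s ∧
      (∫ s in (t - (2 * π - η))..t, coef η s) ≤ 6 * η := by
  have h1 := abs_le.mp (integral_period hη (hη1.trans (by norm_num)))
  have h2 := abs_le.mp (integral_window hη t)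
  rw [integral_delay]
  have hpi1 : 3 < π := pi_gt_three
  have hpi2 : π < 3.15 := pi_lt_d2
  have hsin1 : η - η ^ 3 / 6 < sin η := sin_gt_sub_cube hη
  have hsin2 : sin η < η := sin_lt hη
  have hexp : exp η ≤ 1.2 := by
    have h := Real.abs_exp_sub_one_sub_id_le (x := η) (by rw [abs_of_pos hη]; linarith)
    have h' := (abs_le.mp h).2
    nlinarith
  have hsq : η ^ 2 ≤ η / 10 := by nlinarith
  have hcube : η ^ 3 ≤ η / 100 := by
    have : η ^ 3 = η * η ^ 2 := by ring
    rw [this]; nlinarith
  have e1 : exp η * η ≤ 1.2 * η := by nlinarith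
  have e2 : 2 * π * η ^ 2 ≤ 0.63 * η := by nlinarith
  have e3 : π * sin η ≤ 3.15 * η := by nlinarith [mul_pos pi_pos hη]
  have e4 : 2.99 * η ≤ π * sin η := by
    have : 0.9975 * η ≤ sin η := by linarith
    nlinarith [mul_pos pi_pos hη]
  constructor
  · linarith
  · linarith

/-- the periodic positive solution -/
lemma hasDerivAt_sol (η t : ℝ) :
    HasDerivAt (fun t : ℝ => exp (-sin t)) (-(coef η t * exp (-sin (t - (2 * π - η))))) t := by
  have h1 : HasDerivAt (fun t : ℝ => exp (-sin t)) (exp (-sin t) * (-cos t)) t :=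
    ((hasDerivAt_sin t).neg).exp
  convert h1 using 1
  unfold coef
  have e : sin (t - (2 * π - η)) = sin (t + η) := by
    rw [show t - (2 * π - η) = t + η - 2 * π by ring, sin_sub_two_pi]
  rw [e, mul_assoc, ← exp_add]
  rw [show sin (t + η) - sin t + -sin (t + η) = -sin t by ring]
  ring

/-- **Answer to Q1: no.** For no starting time `t₀` is there a constant `M > 0` such that every
admissible pair `(a, h)` with `0 < liminf ∫_{h t}^t a` and `limsup ∫_{h t}^t a < M` gives an
asymptotically stable equation. -/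
theorem result (t₀ : ℝ) :
    ¬ ∃ M : ℝ, 0 < M ∧ ∀ a h : ℝ → ℝ, Admissible t₀ a h →
      0 < liminf (fun t : ℝ => ∫ ζ in (h t)..t, a ζ) atTop →
      limsup (fun t : ℝ => ∫ ζ in (h t)..t, a ζ) atTop < M →
      AsymptoticallyStable t₀ a h := by
  rintro ⟨M, hM, H⟩
  obtain ⟨η, hη, hη1, hηM⟩ : ∃ η : ℝ, 0 < η ∧ η ≤ 1 / 10 ∧ 6 * η < M :=
    ⟨min (1 / 10) (M / 7), by positivity, min_le_left _ _, by
      have := min_le_right (1 / 10 : ℝ) (M / 7)
      linarith⟩
  have hadm : Admissible t₀ (coef η) (fun t => t - (2 * π - η)) :=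
    { cont_a := (coef_cont η).continuousOn
      cont_h := by fun_prop
      h_le := fun t _ => by
        have := pi_gt_three
        linarith
      h_tendsto := tendsto_atTop_add_const_right _ _ tendsto_id
      bdd_a := ⟨exp η, fun t _ => abs_coef_le hη t⟩
      bdd_delay := ⟨2 * π - η, fun t _ => by simp⟩ }
  have hlow : ∀ t, η ≤ ∫ ζ in (t - (2 * π - η))..t, coef η ζ := fun t => (bounds hη hη1 t).1
  have hup : ∀ t, (∫ ζ in (t - (2 * π - η))..t, coef η ζ) ≤ 6 * η :=
    fun t => (bounds hη hη1 t).2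
  have hlim : 0 < liminf (fun t : ℝ => ∫ ζ in (t - (2 * π - η))..t, coef η ζ) atTop := by
    refine lt_of_lt_of_le hη ?_
    refine le_liminf_of_le ?_ (Eventually.of_forall hlow)
    exact isCoboundedUnder_ge_of_le atTop hup
  have hlim2 : limsup (fun t : ℝ => ∫ ζ in (t - (2 * π - η))..t, coef η ζ) atTop < M := by
    refine lt_of_le_of_lt ?_ hηM
    refine limsup_le_of_le ?_ (Eventually.of_forall hup)
    exact isCoboundedUnder_le_of_le atTop hlow
  have hAS := H (coef η) (fun t => t - (2 * π - η)) hadm hlim hlim2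
  have hinit : IsInitial t₀ (fun t => exp (-sin t)) :=
    { cont := by fun_prop
      bdd := ⟨exp 1, fun t _ => by
        rw [abs_of_pos (exp_pos _)]
        exact exp_le_exp.mpr (by linarith [neg_one_le_sin t])⟩ }
  have hsol : IsSolution t₀ (coef η) (fun t => t - (2 * π - η)) (fun t => exp (-sin t))
      (fun t => exp (-sin t)) :=
    { init := fun _ _ => rfl
      cont := by fun_prop
      deriv := fun t _ => (hasDerivAt_sol η t).hasDerivWithinAt }
  have h0 := hAS.2 _ _ hinit hsol
  have h1 : ∀ t : ℝ, exp (-1) ≤ exp (-sin t) := fun t =>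
    exp_le_exp.mpr (by linarith [sin_le_one t])
  have h2 := ge_of_tendsto' h0 h1
  exact absurd h2 (not_le.mpr (exp_pos _))

end Pool.Agent.Results.MP_5ce401_an.NoConstant
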